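import Pool.Agent.Q182.ACExample

set_option autoImplicit false

open Q182

namespace Pool.Agent.Results.MP_22c7c2_gt.NoInfimum

universe u

/-- There is an absolutely `H`-closed Hausdorff topological semilattice with a countable nonempty
chain which has no lower bound, in particular no infimum. So absolutely `H`-closed topological
semilattices need not be chain-complete. -/
theorem result : ∃ (X : Type) (_ : SemilatticeInf X) (_ : TopologicalSpace X) (_ : ContinuousInf X)
    (_ : T2Space X), IsAbsHClosed.{u} X ∧ ∃ C : Set X, C.Nonempty ∧ IsChain (· ≤ ·) C ∧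
      C.Countable ∧ (∀ i, i ∉ lowerBounds C) ∧ ∀ i, ¬ IsGLB C i :=
  ⟨AC.X, inferInstance, inferInstance, inferInstance, inferInstance, AC.absHClosed,
    Set.range AC.X.c, AC.chain_spec.1, AC.chain_spec.2.1, Set.countable_range _,
    AC.chain_spec.2.2, fun i hi => AC.chain_spec.2.2 i hi.1⟩

end Pool.Agent.Results.MP_22c7c2_gt.NoInfimum
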